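import Pool.Agent.H534R3.XApp
import Pool.Agent.H534R3.YA
import Pool.Agent.H534R3.PiThree

/-!
# Differences of sets of normal numbers for real bases

For all real `α, β` with `|α|, |β| > 1` such that `N(α) \ N(β)` is not empty, the set
`N(α) \ N(β)` is complete for the class of the differences of two sets of the third multiplicative
class.

If the ratio of the logarithms is irrational, a continuous map from the Baire space to the reals
reduces independently the convergence to infinity along the odd and the even indices to the
normality in the bases `α` and `β`; the blocks that spoil the normality in one base are chosen by a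
second moment argument with respect to a Riesz density with real frequencies.

If the ratio of the logarithms is rational, the two bases are up to sign powers of one number `θ`.
The blocks are chosen with respect to Riesz densities that are centred at a given point `x₀` of
the difference, with random shifts of the set of frequencies: for every frequency `h θ ^ n` the
expectation of the exponential at the chosen point is the exponential at `x₀` times a nonnegative
number that depends on `h` only. So a block imitates the behaviour of `x₀` in both bases.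
-/

set_option autoImplicit false

open Filter Topology

namespace Pool.Agent.Results.MP_3974fb_lc.AllBases

/-- The sequence `x` is uniformly distributed modulo one. -/
def IsUD (x : ℕ → ℝ) : Prop := ∀ s t : ℝ, 0 ≤ s → s ≤ t → t ≤ 1 →
  Tendsto
    (fun N : ℕ =>
      (((Finset.range N).filter (fun n => s ≤ Int.fract (x n) ∧ Int.fract (x n) < t)).card : ℝ)
        / (N : ℝ))
    atTop (nhds (t - s))

/-- The set `N(α)` of the reals `ξ` such that `ξ α ^ n` is uniformly distributed modulo one. -/
def NormalTo (α : ℝ) : Set ℝ := {ξ | IsUD (fun n => ξ * α ^ n)}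

/-- `A` is a countable intersection of countable unions of closed sets. -/
def IsPiThree {X : Type} [TopologicalSpace X] (A : Set X) : Prop :=
  ∃ F : ℕ → ℕ → Set X, (∀ i j, IsClosed (F i j)) ∧ A = ⋂ i, ⋃ j, F i j

/-- `D` is the difference of two sets of the third multiplicative class. -/
def IsDTwo {X : Type} [TopologicalSpace X] (D : Set X) : Prop :=
  ∃ A B : Set X, IsPiThree A ∧ IsPiThree B ∧ D = A \ B

/-- `D` is complete for the class of the differences of two sets of the third multiplicative class:
it belongs to the class and its complement does not. -/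
def IsDTwoComplete {X : Type} [TopologicalSpace X] (D : Set X) : Prop :=
  IsDTwo D ∧ ¬ IsDTwo Dᶜ

theorem piThree_preimage {X Y : Type} [TopologicalSpace X] [TopologicalSpace Y] {f : X → Y}
    (hf : Continuous f) {A : Set Y} (hA : IsPiThree A) : IsPiThree (f ⁻¹' A) := by
  obtain ⟨F, hF, rfl⟩ := hA
  refine ⟨fun i j => f ⁻¹' F i j, fun i j => (hF i j).preimage hf, ?_⟩
  simp only [Set.preimage_iInter, Set.preimage_iUnion]

/-- The reduction, for all pairs of bases. -/
theorem reduce_all (α β : ℝ) (hα : 1 < |α|) (hβ : 1 < |β|)
    (hne : (NormalTo α \ NormalTo β).Nonempty) :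
    ∃ G : (ℕ → ℕ) → ℝ, Continuous G ∧ ∀ w, (G w ∈ NormalTo α ∧ G w ∉ NormalTo β) ↔
      ((∀ e, ∃ J, ∀ j, J ≤ j → Pool.Agent.H534R3.Rota.ty j = true → e ≤ w j) ∧
        ¬ (∀ e, ∃ J, ∀ j, J ≤ j → Pool.Agent.H534R3.Rota.ty j = false → e ≤ w j)) := by
  by_cases hr : Irrational (Real.log |α| / Real.log |β|)
  · obtain ⟨g, hg, hga, hgb⟩ := Pool.Agent.H534R3.Rota.reduce_two_real α β hα hβ hr
    refine ⟨g, hg, fun w => ?_⟩
    rw [← hga, ← hgb]
    exact Iff.rfl
  · obtain ⟨x0, hx1, hx2⟩ := hne
    exact Pool.Agent.H534R3.Rota.reduce_rational α β hα hβ hr x0 hx1 hx2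

theorem result (α β : ℝ) (hα : 1 < |α|) (hβ : 1 < |β|)
    (hne : (NormalTo α \ NormalTo β).Nonempty) :
    IsDTwoComplete (NormalTo α \ NormalTo β) := by
  have hN : ∀ c : ℝ, IsPiThree (NormalTo c) := by
    intro c
    obtain ⟨F, hF, hFe⟩ := Pool.Agent.H534R3.UDist.ud_piThree
      (fun (ξ : ℝ) (n : ℕ) => ξ * c ^ n) (fun n => by fun_prop)
    exact ⟨F, hF, hFe⟩
  refine ⟨⟨_, _, hN α, hN β, rfl⟩, ?_⟩
  rintro ⟨A, B, hA, hB, hAB⟩
  obtain ⟨g, hg, hgw⟩ := reduce_all α β hα hβ hne
  obtain ⟨F, hF, hFe⟩ := piThree_preimage hg hA
  obtain ⟨F', hF', hFe'⟩ := piThree_preimage hg hB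
  refine Pool.Agent.H534R3.Rota.no_dual
    (fun w t => ∀ e, ∃ J, ∀ j, J ≤ j → Pool.Agent.H534R3.Rota.ty j = t → e ≤ w j)
    (fun w t => Iff.rfl) F F' hF hF' ?_
  rw [← hFe, ← hFe', ← Set.preimage_sdiff, ← hAB, Set.preimage_compl]
  congr 1
  ext w
  exact (hgw w).symm

end Pool.Agent.Results.MP_3974fb_lc.AllBases
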